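import Pool.Agent.Helper55.PC.Base

/-!
Block B6 (`tasks`) of the pre-cutoff blueprint (MP_cf7fa9_pr).
-/

namespace Pool.Agent.Helper55.PC

open Finset
open scoped Classical

namespace B6

/-- machine: `(i, c, q)` -/
noncomputable def st {ℓ : ℕ} (nT : ℕ) (W : ℕ → Pat) (y : ℕ → ZMod ℓ) (a : Slot)
    (e : ℕ × ZMod ℓ × ℕ) : ℕ × ZMod ℓ × ℕ :=
  if e.1 < nT ∧ e.2.1 = y e.1 ∧ (W e.1).P e.2.2 a then
    (if e.2.2 + 1 = (W e.1).n then (e.1 + 1, e.2.1 + (mv a : ZMod ℓ), 0)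
      else (e.1, e.2.1 + (mv a : ZMod ℓ), e.2.2 + 1))
  else (e.1, e.2.1 + (mv a : ZMod ℓ), 0)

/-- invariant of states -/
def Inv {ℓ : ℕ} (W : ℕ → Pat) (y : ℕ → ZMod ℓ) (e : ℕ × ZMod ℓ × ℕ) : Prop :=
  e.2.2 < (W e.1).n ∧ (0 < e.2.2 → e.2.1 = y e.1)

lemma Inv_st {ℓ : ℕ} (nT : ℕ) (W : ℕ → Pat) (y : ℕ → ZMod ℓ) (a : Slot)
    (e : ℕ × ZMod ℓ × ℕ) (h : Inv W y e) : Inv W y (st nT W y a e) := by
  obtain ⟨i, c, q⟩ := e
  obtain ⟨h1, h2⟩ := h
  simp only at h1 h2
  unfold st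
  simp only
  split_ifs with h3 h4
  · exact ⟨(W (i + 1)).pos, fun h => absurd h (lt_irrefl _)⟩
  · refine ⟨?_, fun _ => ?_⟩
    · simp only; omega
    · have := (W i).still q h1 a h3.2.2
      simp only [this, h3.2.1, Int.cast_zero, add_zero]
  · exact ⟨(W i).pos, fun h => absurd h (lt_irrefl _)⟩

/-- deterministic invariant -/
lemma trace {ℓ : ℕ} (nT : ℕ) (W : ℕ → Pat) (y : ℕ → ZMod ℓ) (c0 : ZMod ℓ) (w : ℕ → Slot) (s : ℕ) :
    let e := run (st nT W y) (0, c0, 0) w s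
    e.1 ≤ nT ∧ e.2.1 = c0 + (cur w s : ZMod ℓ) ∧ e.2.2 < (W e.1).n ∧
    ∃ σ : ℕ → ℕ, (∀ i < e.1, c0 + (cur w (σ i) : ZMod ℓ) = y i ∧
      (W i).occ w (σ i) ∧ σ i + (W i).n ≤ σ (i + 1)) ∧ σ e.1 + e.2.2 ≤ s ∧
      (0 < e.2.2 → c0 + (cur w (s - e.2.2) : ZMod ℓ) = y e.1) ∧
      (∀ j < e.2.2, (W e.1).P j (w (s - e.2.2 + j))) := by
  induction s with
  | zero =>
    refine ⟨Nat.zero_le _, by simp [run], (W 0).pos, fun _ => 0, ?_, ?_, ?_, ?_⟩
    · intro i hi; simp [run] at hi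
    · simp [run]
    · simp [run]
    · intro j hj; simp [run] at hj
  | succ s ih =>
    simp only [run] at ih ⊢
    generalize run (st nT W y) (0, c0, 0) w s = e at ih ⊢
    obtain ⟨i, c, q⟩ := e
    simp only at ih
    obtain ⟨hi, hc, hq, σ, h1, h2, h3, h4⟩ := ih
    have hc' : c + (mv (w s) : ZMod ℓ) = c0 + (cur w (s + 1) : ZMod ℓ) := by
      rw [cur_succ, hc]; push_cast; ring
    unfold st
    simp only
    split_ifs with hA hB
    · -- completed
      obtain ⟨hiT, hcy, hP⟩ := hA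
      simp only
      refine ⟨hiT, hc', (W (i + 1)).pos,
        fun j => if j < i then σ j else if j = i then s + 1 - (W i).n else s + 1, ?_, ?_, ?_, ?_⟩
      · intro j hj
        rcases Nat.lt_succ_iff_lt_or_eq.1 hj with hj' | hj'
        · obtain ⟨a1, a2, a3⟩ := h1 j hj'
          simp only [hj', if_true]
          refine ⟨a1, a2, ?_⟩
          split_ifs with h5 h6
          · exact a3
          · have : j + 1 = i := h6
            rw [this] at a3
            omega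
          · omega
        · subst hj'
          simp only [lt_irrefl, if_false, if_true]
          have hsub : s + 1 - (W j).n = s - q := by omega
          rw [hsub]
          refine ⟨?_, ?_, ?_⟩
          · rcases Nat.eq_zero_or_pos q with h0 | h0
            · subst h0; rw [Nat.sub_zero, ← hc, hcy]
            · exact h3 h0
          · intro m hm
            rcases Nat.lt_or_ge m q with hmq | hmq
            · exact h4 m hmq
            · have hmq' : m = q := by omega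
              subst hmq'
              have : s - m + m = s := by omega
              rw [this]; exact hP
          · have : ¬ (j + 1 < j) := by omega
            simp only [this, if_false, Nat.succ_ne_self]
            omega
      · simp
      · intro h; exact absurd h (lt_irrefl _)
      · intro j hj; exact absurd hj (Nat.not_lt_zero _)
    · -- progress
      obtain ⟨hiT, hcy, hP⟩ := hA
      simp only
      refine ⟨hi, hc', by omega, σ, h1, by omega, ?_, ?_⟩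
      · intro _
        have : s + 1 - (q + 1) = s - q := by omega
        rw [this]
        rcases Nat.eq_zero_or_pos q with h0 | h0
        · subst h0; rw [Nat.sub_zero, ← hc, hcy]
        · exact h3 h0
      · intro m hm
        have e1 : s + 1 - (q + 1) = s - q := by omega
        rw [e1]
        rcases Nat.lt_or_ge m q with hmq | hmq
        · exact h4 m hmq
        · have hmq' : m = q := by omega
          subst hmq'
          have : s - m + m = s := by omega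
          rw [this]; exact hP
    · simp only
      refine ⟨hi, hc', (W i).pos, σ, h1, by omega, ?_, ?_⟩
      · intro h; exact absurd h (lt_irrefl _)
      · intro j hj; exact absurd hj (Nat.not_lt_zero _)

/-- bound for one task -/
noncomputable def T (ℓ : ℕ) (W : ℕ → Pat) (j : ℕ) : ℝ := 2 * (ℓ : ℝ) ^ 2 + 2 * ℓ * 14 ^ (W j).n

lemma T_nonneg (ℓ : ℕ) (W : ℕ → Pat) (j : ℕ) : 0 ≤ T ℓ W j := by unfold T; positivity

/-- `b_q` -/
noncomputable def b (n q : ℕ) : ℝ := (14 ^ q - 1) / (14 ^ n - 1)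

/-- potential of one task -/
noncomputable def pot {ℓ : ℕ} (W : ℕ → Pat) (y : ℕ → ZMod ℓ) (e : ℕ × ZMod ℓ × ℕ) : ℝ :=
  7 * ((e.2.1 - y e.1).val : ℝ) * (ℓ - ((e.2.1 - y e.1).val : ℝ)) +
    2 * ℓ * 14 ^ (W e.1).n * (1 - b (W e.1).n e.2.2)

lemma b_zero (n : ℕ) : b n 0 = 0 := by simp [b]

lemma b_self {n : ℕ} (hn : 0 < n) : b n n = 1 := by
  unfold b
  have : (1:ℝ) < 14 ^ n := one_lt_pow₀ (by norm_num) hn.ne'
  rw [div_self]; linarith

lemma b_nonneg (n q : ℕ) : 0 ≤ b n q := by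
  unfold b
  have h1 : (1:ℝ) ≤ 14 ^ n := one_le_pow₀ (by norm_num)
  have h2 : (1:ℝ) ≤ 14 ^ q := one_le_pow₀ (by norm_num)
  exact div_nonneg (by linarith) (by linarith)

lemma b_le_one {n q : ℕ} (h : q ≤ n) : b n q ≤ 1 := by
  unfold b
  have h1 : (1:ℝ) ≤ 14 ^ n := one_le_pow₀ (by norm_num)
  have h2 : (14:ℝ) ^ q ≤ 14 ^ n := pow_le_pow_right₀ (by norm_num) h
  exact div_le_one_of_le₀ (by linarith) (by linarith)

lemma b_step {n : ℕ} (hn : 0 < n) (ℓ q : ℕ) :
    14 * (ℓ:ℝ) + 14 * (2 * ℓ * 14 ^ n * b n q) ≤ 2 * ℓ * 14 ^ n * b n (q + 1) := by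
  unfold b
  have h1 : (1:ℝ) < 14 ^ n := one_lt_pow₀ (by norm_num) hn.ne'
  have h2 : (0:ℝ) < 14 ^ n - 1 := by linarith
  have h3 : 2 * (ℓ:ℝ) * 14 ^ n * ((14 ^ (q + 1) - 1) / (14 ^ n - 1)) -
      14 * (2 * ℓ * 14 ^ n * ((14 ^ q - 1) / (14 ^ n - 1))) = 26 * ℓ * (14 ^ n / (14 ^ n - 1)) := by
    field_simp
    ring
  have h4 : (1:ℝ) ≤ 14 ^ n / (14 ^ n - 1) := by rw [le_div_iff₀ h2]; linarith
  have h5 : (0:ℝ) ≤ ℓ := Nat.cast_nonneg _
  nlinarith [mul_le_mul_of_nonneg_left h4 (by positivity : (0:ℝ) ≤ 26 * ℓ)]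

lemma pot_nonneg {ℓ : ℕ} [NeZero ℓ] (W : ℕ → Pat) (y : ℕ → ZMod ℓ) (e : ℕ × ZMod ℓ × ℕ)
    (h : Inv W y e) : 0 ≤ pot W y e := by
  unfold pot
  have h1 := b_le_one h.1.le
  have h2 : (((e.2.1 - y e.1).val : ℕ) : ℝ) ≤ ℓ := by exact_mod_cast (ZMod.val_lt _).le
  have h3 : (0:ℝ) ≤ 7 * ((e.2.1 - y e.1).val : ℝ) * (ℓ - ((e.2.1 - y e.1).val : ℝ)) :=
    mul_nonneg (by positivity) (by linarith)
  have h4 : (0:ℝ) ≤ 2 * ℓ * 14 ^ (W e.1).n * (1 - b (W e.1).n e.2.2) :=
    mul_nonneg (by positivity) (by linarith)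
  linarith

lemma pot_le {ℓ : ℕ} (W : ℕ → Pat) (y : ℕ → ZMod ℓ) (e : ℕ × ZMod ℓ × ℕ) :
    pot W y e ≤ T ℓ W e.1 := by
  unfold pot T
  have h1 := b_nonneg (W e.1).n e.2.2
  have h3 : 7 * ((e.2.1 - y e.1).val : ℝ) * (ℓ - ((e.2.1 - y e.1).val : ℝ)) ≤ 2 * (ℓ:ℝ) ^ 2 := by
    nlinarith [sq_nonneg ((ℓ : ℝ) - 2 * ((e.2.1 - y e.1).val : ℝ)), sq_nonneg (ℓ:ℝ)]
  have h4 : (0:ℝ) ≤ 2 * ℓ * 14 ^ (W e.1).n := by positivity
  nlinarith

/-- total potential -/
noncomputable def F {ℓ : ℕ} (nT : ℕ) (W : ℕ → Pat) (y : ℕ → ZMod ℓ) (e : ℕ × ZMod ℓ × ℕ) : ℝ :=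
  (if e.1 < nT then pot W y e else 0) + ∑ j ∈ Ico (e.1 + 1) nT, T ℓ W j

lemma F_le {ℓ : ℕ} (nT : ℕ) (W : ℕ → Pat) (y : ℕ → ZMod ℓ) (e : ℕ × ZMod ℓ × ℕ) :
    F nT W y e ≤ ∑ j ∈ Ico e.1 nT, T ℓ W j := by
  unfold F
  split_ifs with h
  · rw [Finset.sum_eq_sum_Ico_succ_bot h]
    linarith [pot_le W y e]
  · rw [Ico_eq_empty (by omega), Ico_eq_empty (by omega)]; simp

lemma sum_slot (A B C D : ℝ) (a' : Slot) :
    ∑ a : Slot, (A + (if a = (0, true) then B else 0) + (if a = (1, true) then C else 0) -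
      (if a = a' then D else 0)) = 14 * A + B + C - D := by
  rw [sum_sub_distrib, sum_add_distrib, sum_add_distrib]
  simp

lemma val_add_one {ℓ : ℕ} (hℓ : 2 ≤ ℓ) (v : ZMod ℓ) :
    ((v + 1).val : ℝ) * (ℓ - ((v + 1).val : ℝ)) = ((v.val : ℝ) + 1) * (ℓ - ((v.val : ℝ) + 1)) := by
  have : NeZero ℓ := ⟨by omega⟩
  have : Fact (1 < ℓ) := ⟨by omega⟩
  have h1 : (v + 1).val = (v.val + 1) % ℓ := by rw [ZMod.val_add, ZMod.val_one]
  have h2 := ZMod.val_lt v
  rcases Nat.lt_or_ge (v.val + 1) ℓ with h | h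
  · rw [h1, Nat.mod_eq_of_lt h]; push_cast; ring
  · have h3 : v.val + 1 = ℓ := by omega
    rw [h1, h3, Nat.mod_self]
    have h4 : (v.val : ℝ) + 1 = ℓ := by exact_mod_cast h3
    rw [h4]; simp

lemma val_sub_one {ℓ : ℕ} (hℓ : 2 ≤ ℓ) (v : ZMod ℓ) (hv : v ≠ 0) :
    ((v - 1).val : ℝ) = (v.val : ℝ) - 1 := by
  have : NeZero ℓ := ⟨by omega⟩
  have : Fact (1 < ℓ) := ⟨by omega⟩
  have h0 : v.val ≠ 0 := fun h => hv ((ZMod.val_eq_zero v).1 h)
  have h1 : (v - 1).val = v.val - 1 := by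
    rw [ZMod.val_sub, ZMod.val_one]
    rw [ZMod.val_one]; omega
  rw [h1]; push_cast [Nat.one_le_iff_ne_zero.2 h0]; ring

lemma val_neg_one' {ℓ : ℕ} (hℓ : 2 ≤ ℓ) : (((0 : ZMod ℓ) - 1).val : ℝ) = ℓ - 1 := by
  obtain ⟨n, rfl⟩ : ∃ n, ℓ = n + 1 := ⟨ℓ - 1, by omega⟩
  rw [zero_sub, ZMod.val_neg_one]; push_cast; ring

lemma mv_ne {a : Slot} (h0 : a ≠ (0, true)) (h1 : a ≠ (1, true)) : mv a = 0 := by
  simp [mv, h0, h1]

lemma mv0 : mv (0, true) = 1 := by simp [mv]
lemma mv1 : mv (1, true) = -1 := by decide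

lemma step {ℓ : ℕ} (hℓ : 2 ≤ ℓ) (nT : ℕ) (W : ℕ → Pat) (y : ℕ → ZMod ℓ) (e : ℕ × ZMod ℓ × ℕ)
    (hI : Inv W y e) (hA : e.1 < nT) :
    (∑ a : Slot, F nT W y (st nT W y a e)) / 14 ≤ F nT W y e - 1 := by
  have : NeZero ℓ := ⟨by omega⟩
  have : Fact (1 < ℓ) := ⟨by omega⟩
  obtain ⟨i, c, q⟩ := e
  simp only at hA
  obtain ⟨hq, hqc⟩ := hI
  simp only at hq hqc
  set S := ∑ j ∈ Ico (i + 1) nT, T ℓ W j with hS
  set F0 : ℝ := 2 * ℓ * 14 ^ (W i).n with hF0
  have hF0n : 0 ≤ F0 := by positivity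
  rw [div_le_iff₀ (by norm_num : (0:ℝ) < 14)]
  by_cases hc : c = y i
  · -- at the site
    obtain ⟨a', ha'⟩ := (W i).ex q hq
    have hF : F nT W y (i, c, q) = F0 * (1 - b (W i).n q) + S := by
      simp [F, hA, pot, hc, hF0, hS]
    have key : ∀ a : Slot, F nT W y (st nT W y a (i, c, q)) ≤
        (F0 + S) + (if a = (0, true) then 7 * ((ℓ:ℝ) - 1) else 0) +
          (if a = (1, true) then 7 * ((ℓ:ℝ) - 1) else 0) -
          (if a = a' then F0 * b (W i).n (q + 1) else 0) := by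
      intro a
      by_cases hP : (W i).P q a
      · have hmv := (W i).still q hq a hP
        have h0 : a ≠ (0, true) := fun h => by rw [h, mv0] at hmv; norm_num at hmv
        have h1 : a ≠ (1, true) := fun h => by rw [h, mv1] at hmv; norm_num at hmv
        rw [if_neg h0, if_neg h1]
        have h2 : (if a = a' then F0 * b (W i).n (q + 1) else 0) ≤ F0 * b (W i).n (q + 1) := by
          split_ifs
          · exact le_rfl
          · exact mul_nonneg hF0n (b_nonneg _ _)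
        by_cases hn : q + 1 = (W i).n
        · have e1 : st nT W y a (i, c, q) = (i + 1, c + (mv a : ZMod ℓ), 0) := by
            simp [st, hA, hc, hP, hn]
          rw [e1]
          have h3 := F_le nT W y (i + 1, c + (mv a : ZMod ℓ), 0)
          simp only at h3
          rw [← hS] at h3
          rw [hn, b_self (W i).pos] at h2 
          rw [hn, b_self (W i).pos]
          linarith
        · have e1 : st nT W y a (i, c, q) = (i, c, q + 1) := by
            simp [st, hA, hc, hP, hn, hmv]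
          rw [e1]
          have e2 : F nT W y (i, c, q + 1) = F0 * (1 - b (W i).n (q + 1)) + S := by
            simp [F, hA, pot, hc, hF0, hS]
          rw [e2]; linarith
      · have h2 : a ≠ a' := fun h => hP (h ▸ ha')
        rw [if_neg h2, sub_zero]
        have e1 : st nT W y a (i, c, q) = (i, c + (mv a : ZMod ℓ), 0) := by
          simp [st, hP]
        rw [e1]
        have e2 : F nT W y (i, c + (mv a : ZMod ℓ), 0) =
            7 * ((((mv a : ℤ) : ZMod ℓ)).val * (ℓ - ((((mv a : ℤ) : ZMod ℓ)).val : ℝ))) + F0 + S := by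
          simp [F, hA, pot, hc, hF0, hS, b_zero]; ring
        rw [e2]
        by_cases h0 : a = (0, true)
        · subst h0
          rw [if_pos rfl, if_neg (by decide), mv0]
          have : (((1 : ℤ) : ZMod ℓ)).val = 1 := by rw [Int.cast_one, ZMod.val_one]
          rw [this]; push_cast; linarith
        · by_cases h1 : a = (1, true)
          · subst h1
            rw [if_pos rfl, if_neg (by decide), mv1]
            have : ((((-1 : ℤ) : ZMod ℓ)).val : ℝ) = ℓ - 1 := by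
              have := val_neg_one' hℓ
              rw [zero_sub] at this
              rw [Int.cast_neg, Int.cast_one]; exact this
            rw [this]; linarith
          · rw [if_neg h0, if_neg h1, mv_ne h0 h1]; simp
    calc ∑ a : Slot, F nT W y (st nT W y a (i, c, q)) ≤ _ := sum_le_sum fun a _ => key a
      _ = 14 * (F0 + S) + 7 * ((ℓ:ℝ) - 1) + 7 * ((ℓ:ℝ) - 1) - F0 * b (W i).n (q + 1) :=
          sum_slot _ _ _ _ _
      _ ≤ (F nT W y (i, c, q) - 1) * 14 := by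
          rw [hF]
          have := b_step (W i).pos ℓ q
          rw [← hF0] at this
          linarith
  · -- away from the site
    have hq0 : q = 0 := by
      rcases Nat.eq_zero_or_pos q with h | h
      · exact h
      · exact absurd (hqc h) hc
    subst hq0
    set v : ZMod ℓ := c - y i with hv
    have hv0 : v ≠ 0 := sub_ne_zero.2 hc
    have hF : F nT W y (i, c, 0) = 7 * ((v.val:ℝ) * (ℓ - v.val)) + F0 + S := by
      simp [F, hA, pot, hF0, hS, b_zero, ← hv]; ring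
    have key : ∀ a : Slot, F nT W y (st nT W y a (i, c, 0)) =
        (7 * ((v.val:ℝ) * (ℓ - v.val)) + F0 + S) +
        (if a = (0, true) then 7 * (((v.val:ℝ) + 1) * (ℓ - ((v.val:ℝ) + 1))) -
          7 * ((v.val:ℝ) * (ℓ - v.val)) else 0) +
        (if a = (1, true) then 7 * (((v.val:ℝ) - 1) * (ℓ - ((v.val:ℝ) - 1))) -
          7 * ((v.val:ℝ) * (ℓ - v.val)) else 0) - (if a = (0, true) then 0 else 0) := by
      intro a
      have e1 : st nT W y a (i, c, 0) = (i, c + (mv a : ZMod ℓ), 0) := by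
        simp [st, hc]
      rw [e1]
      have e3 : c + ((mv a : ℤ) : ZMod ℓ) - y i = v + ((mv a : ℤ) : ZMod ℓ) := by rw [hv]; ring
      have e2 : F nT W y (i, c + (mv a : ZMod ℓ), 0) =
          7 * (((v + ((mv a : ℤ) : ZMod ℓ)).val : ℝ) *
            (ℓ - ((v + ((mv a : ℤ) : ZMod ℓ)).val : ℝ))) + F0 + S := by
        simp only [F, hA, pot, if_true, b_zero, hF0, hS, e3]; ring
      rw [e2]
      by_cases h0 : a = (0, true)
      · subst h0
        rw [if_pos rfl, if_neg (by decide), mv0, Int.cast_one, val_add_one hℓ]; simp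
        ring
      · by_cases h1 : a = (1, true)
        · subst h1
          rw [if_pos rfl, if_neg (by decide), mv1, Int.cast_neg, Int.cast_one, ← sub_eq_add_neg,
            val_sub_one hℓ v hv0]; simp
          ring
        · rw [if_neg h0, if_neg h1, mv_ne h0 h1]; simp
    calc ∑ a : Slot, F nT W y (st nT W y a (i, c, 0)) = _ := sum_congr rfl fun a _ => key a
      _ = 14 * (7 * ((v.val:ℝ) * (ℓ - v.val)) + F0 + S) +
          (7 * (((v.val:ℝ) + 1) * (ℓ - ((v.val:ℝ) + 1))) - 7 * ((v.val:ℝ) * (ℓ - v.val))) +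
          (7 * (((v.val:ℝ) - 1) * (ℓ - ((v.val:ℝ) - 1))) - 7 * ((v.val:ℝ) * (ℓ - v.val))) - 0 :=
          sum_slot _ _ _ _ _
      _ ≤ (F nT W y (i, c, 0) - 1) * 14 := by
          rw [hF]
          apply le_of_eq
          ring

end B6

theorem tasks (ℓ : ℕ) (hℓ : 2 ≤ ℓ) (c0 : ZMod ℓ) (nT : ℕ) (W : ℕ → Pat) (y : ℕ → ZMod ℓ)
    (t : ℕ) (ht : 0 < t) :
    Pr t (fun w => ¬ ∃ σ : ℕ → ℕ, (∀ i < nT, c0 + (cur w (σ i) : ZMod ℓ) = y i ∧
      (W i).occ w (σ i) ∧ σ i + (W i).n ≤ σ (i + 1)) ∧ σ nT ≤ t)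
    ≤ (∑ i ∈ range nT, (2 * (ℓ : ℝ) ^ 2 + 2 * ℓ * 14 ^ (W i).n)) / t := by
  have : NeZero ℓ := ⟨by omega⟩
  have h1 : Pr t (fun w => ¬ ¬ (run (B6.st nT W y) (0, c0, 0) w t).1 < nT) ≤
      B6.F nT W y (0, c0, 0) / t := by
    refine Pr_not_absorbed (B6.st nT W y) (0, c0, 0) (B6.Inv W y)
      ⟨(W 0).pos, fun h => absurd h (lt_irrefl _)⟩ (B6.Inv_st nT W y) (fun e => ¬ e.1 < nT) ?_
      (B6.F nT W y) ?_ ?_ t ht
    · intro a e _ he
      have : (B6.st nT W y a e).1 = e.1 := by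
        unfold B6.st
        rw [if_neg (fun h => he h.1)]
      rw [this]; exact he
    · intro e he
      unfold B6.F
      have h2 : (0:ℝ) ≤ ∑ j ∈ Ico (e.1 + 1) nT, B6.T ℓ W j :=
        sum_nonneg fun j _ => B6.T_nonneg ℓ W j
      have h3 := B6.pot_nonneg W y e he
      split_ifs
      · linarith
      · linarith
    · intro e he hA
      exact B6.step hℓ nT W y e he (not_not.1 hA)
  have h2 : B6.F nT W y (0, c0, 0) ≤ ∑ i ∈ range nT, (2 * (ℓ : ℝ) ^ 2 + 2 * ℓ * 14 ^ (W i).n) := by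
    have := B6.F_le nT W y (0, c0, 0)
    rw [range_eq_Ico]
    exact this
  refine (Pr_mono fun w hw => ?_).trans (h1.trans (by gcongr))
  rw [not_not]
  by_contra hlt
  apply hw
  obtain ⟨g1, g2, g3, σ, g4, g5, g6, g7⟩ := B6.trace nT W y c0 w t
  have hi : (run (B6.st nT W y) (0, c0, 0) w t).1 = nT := le_antisymm g1 (not_lt.1 hlt)
  rw [hi] at g4 g5
  exact ⟨σ, g4, by omega⟩

end Pool.Agent.Helper55.PC
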