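import Pool.Agent.Helper55.PC.Base

/-!
Block B5 (`marks`) of the pre-cutoff blueprint (MP_cf7fa9_pr).
-/

namespace Pool.Agent.Helper55.PC

open Finset
open scoped Classical

namespace B5

/-- machine: `(N, d)`: number of marks, displacement since the last mark -/
def st (L : ℕ) (a : Slot) (e : ℕ × ℤ) : ℕ × ℤ :=
  if |e.2 + mv a| = (L : ℤ) then (e.1 + 1, 0) else (e.1, e.2 + mv a)

lemma trace (L : ℕ) (hL : 1 ≤ L) (w : ℕ → Slot) (t : ℕ) :
    ∃ Mk : Finset ℕ, Mk.card ≤ (run (st L) (0, 0) w t).1 ∧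
      (∀ s s', s < s' → s' ≤ t → 2 * (L : ℤ) ≤ |cur w s' - cur w s| → ∃ m ∈ Mk, s < m ∧ m ≤ s') ∧
      ∃ m0 ≤ t, (run (st L) (0, 0) w t).2 = cur w t - cur w m0 ∧
        (∀ u, m0 ≤ u → u ≤ t → |cur w u - cur w m0| < (L : ℤ)) ∧ (m0 = 0 ∨ m0 ∈ Mk) := by
  induction t with
  | zero =>
    refine ⟨∅, by simp, ?_, 0, le_rfl, by simp [run], ?_, Or.inl rfl⟩
    · intro s s' h1 h2; omega
    · intro u _ hu
      have : u = 0 := by omega
      subst this; simp; omega
  | succ t ih =>
    obtain ⟨Mk, h1, h2, m0, h3, h4, h5, h6⟩ := ih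
    simp only [run]
    generalize run (st L) (0, 0) w t = e at h1 h4 ⊢
    obtain ⟨N, d⟩ := e
    simp only at h1 h4
    have hd : d + mv (w t) = cur w (t + 1) - cur w m0 := by rw [cur_succ, h4]; ring
    unfold st
    simp only
    split_ifs with hA
    · refine ⟨insert (t + 1) Mk, ?_, ?_, t + 1, le_rfl, by simp, ?_, Or.inr (mem_insert_self _ _)⟩
      · simp only
        exact (card_insert_le _ _).trans (by omega)
      · intro s s' hs hs' hh
        rcases Nat.lt_or_ge t s' with h | h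
        · have : s' = t + 1 := by omega
          subst this
          exact ⟨t + 1, mem_insert_self _ _, hs, le_rfl⟩
        · obtain ⟨m, hm, hm'⟩ := h2 s s' hs h hh
          exact ⟨m, mem_insert_of_mem hm, hm'⟩
      · intro u hu hu'
        have : u = t + 1 := by omega
        subst this; simp; omega
    · have hlt : |cur w (t + 1) - cur w m0| < (L : ℤ) := by
        have h7 := h5 t h3 le_rfl
        rw [← h4] at h7
        have h8 := abs_mv_le (w t)
        have h9 : |d + mv (w t)| ≤ |d| + |mv (w t)| := abs_add_le _ _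
        rw [← hd]
        omega
      refine ⟨Mk, h1, ?_, m0, by omega, hd, ?_, h6⟩
      · intro s s' hs hs' hh
        rcases Nat.lt_or_ge t s' with h | h
        · have : s' = t + 1 := by omega
          subst this
          rcases Nat.lt_or_ge s m0 with h' | h'
          · rcases h6 with h6 | h6
            · omega
            · exact ⟨m0, h6, h', by omega⟩
          · exfalso
            have h7 := h5 s h' (by omega)
            have h8 : |cur w (t + 1) - cur w s| ≤
                |cur w (t + 1) - cur w m0| + |cur w s - cur w m0| := by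
              have : cur w (t + 1) - cur w s =
                  (cur w (t + 1) - cur w m0) - (cur w s - cur w m0) := by ring
              rw [this]; exact abs_sub _ _
            omega
        · exact h2 s s' hs h hh
      · intro u hu hu'
        rcases Nat.lt_or_ge t u with h | h
        · have : u = t + 1 := by omega
          subst this; exact hlt
        · exact h5 u hu h

lemma mv_cases (a : Slot) : (mv a : ℝ) = (if a = (0, true) then 1 else 0) -
    (if a = (1, true) then 1 else 0) := by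
  unfold mv
  by_cases h0 : a = (0, true)
  · subst h0; simp
  · by_cases h1 : a = (1, true)
    · subst h1; simp
    · simp [h0, h1]

lemma mv_sq (a : Slot) : (mv a : ℝ) ^ 2 = (if a = (0, true) then 1 else 0) +
    (if a = (1, true) then 1 else 0) := by
  unfold mv
  by_cases h0 : a = (0, true)
  · subst h0; simp
  · by_cases h1 : a = (1, true)
    · subst h1; simp
    · simp [h0, h1]

lemma sum_mv : ∑ a : Slot, (mv a : ℝ) = 0 := by
  simp only [mv_cases, sum_sub_distrib]
  simp

lemma sum_mv_sq : ∑ a : Slot, (mv a : ℝ) ^ 2 = 2 := by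
  simp only [mv_sq, sum_add_distrib]
  simp; norm_num

end B5

theorem marks (L n0 t : ℕ) (hL : 1 ≤ L) :
    Pr t (fun w => ¬ ∃ Mk : Finset ℕ, Mk.card ≤ n0 ∧ ∀ s s', s < s' → s' ≤ t →
      2 * (L : ℤ) ≤ |cur w s' - cur w s| → ∃ m ∈ Mk, s < m ∧ m ≤ s')
    ≤ t / (7 * L ^ 2 * (n0 + 1)) := by
  have hLr : (0:ℝ) < L := by exact_mod_cast hL
  have hL0 : (L:ℝ) ≠ 0 := hLr.ne'
  let F : ℕ × ℤ → ℝ := fun e => e.1 + (e.2 : ℝ) ^ 2 / L ^ 2
  have h1 : Ex t (fun w => F (run (B5.st L) (0, 0) w t)) ≤ F (0, 0) + t * (1 / (7 * (L:ℝ) ^ 2)) := by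
    refine Ex_run_le (B5.st L) (0, 0) (fun _ => True) trivial (fun _ _ _ => trivial) F _ ?_ t
    intro e _
    have hst : ∀ a : Slot, F (B5.st L a e) = (e.1 + (e.2 : ℝ) ^ 2 / L ^ 2) +
        (2 * e.2 / L ^ 2) * (mv a : ℝ) + (1 / L ^ 2) * (mv a : ℝ) ^ 2 := by
      intro a
      have hR : ((e.1 : ℝ) + (e.2 : ℝ) ^ 2 / L ^ 2) +
        (2 * e.2 / L ^ 2) * (mv a : ℝ) + (1 / L ^ 2) * (mv a : ℝ) ^ 2 =
          e.1 + ((e.2 : ℝ) + mv a) ^ 2 / L ^ 2 := by ring
      rw [hR]
      simp only [F, B5.st]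
      split_ifs with hA
      · have h2 : ((e.2 : ℝ) + mv a) ^ 2 = (L : ℝ) ^ 2 := by
          have : (((e.2 + mv a : ℤ)) : ℝ) ^ 2 = (L : ℝ) ^ 2 := by
            rw [← sq_abs, ← Int.cast_abs, hA]; norm_cast
          rw [← this]; push_cast; ring
        rw [h2, div_self (by positivity)]; simp
      · push_cast; rfl
    simp only [hst, sum_add_distrib, ← mul_sum, B5.sum_mv, B5.sum_mv_sq, sum_const, card_univ,
      card_slot]
    apply le_of_eq
    simp only [F, nsmul_eq_mul]
    push_cast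
    ring
  have h2 : Pr t (fun w => ¬ ∃ Mk : Finset ℕ, Mk.card ≤ n0 ∧ ∀ s s', s < s' → s' ≤ t →
      2 * (L : ℤ) ≤ |cur w s' - cur w s| → ∃ m ∈ Mk, s < m ∧ m ≤ s') ≤
      Ex t (fun w => F (run (B5.st L) (0, 0) w t)) / (n0 + 1) := by
    refine Pr_le_Ex (fun w => ?_) (by positivity) fun w hw => ?_
    · simp only [F]; positivity
    · by_contra hlt
      push Not at hlt
      apply hw
      obtain ⟨Mk, g1, g2, _⟩ := B5.trace L hL w t
      refine ⟨Mk, ?_, g2⟩
      have h3 : ((run (B5.st L) (0, 0) w t).1 : ℝ) ≤ F (run (B5.st L) (0, 0) w t) := by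
        simp only [F]
        have : (0:ℝ) ≤ ((run (B5.st L) (0, 0) w t).2 : ℝ) ^ 2 / L ^ 2 := by positivity
        linarith
      have h4 : ((run (B5.st L) (0, 0) w t).1 : ℝ) < n0 + 1 := lt_of_le_of_lt h3 hlt
      have h5 : (run (B5.st L) (0, 0) w t).1 < n0 + 1 := by exact_mod_cast h4
      omega
  refine h2.trans ?_
  have h3 : F (0, 0) = 0 := by simp [F]
  rw [h3, zero_add] at h1
  calc _ ≤ (t * (1 / (7 * (L:ℝ) ^ 2))) / (n0 + 1) := by gcongr
    _ = _ := by field_simp

end Pool.Agent.Helper55.PC
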